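import Pool.Agent.H832R2.JR.Moment
import Pool.Agent.H832R2.JR.Matching
import Pool.Agent.H832R2.JR.Classes

/-!
# The normalised Kauffman bracket of a shadow with random crossings

The definitions are in `Pool.Agent.H832R2.JR.Defs`: `GaussWord N` (the shadow of a knot diagram
with `N` crossings, given by the order in which the crossings are passed), `fPoly G w` (the
normalised Kauffman bracket, a state sum over all `2^N` states, of the diagram with shadow `G` and
crossing signs `w`), `Crosses G i j` (the chords of the crossings `i` and `j` cross), `IsMatching`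
and `classes G` (the number of different nonempty sets `{j | Crosses G i j}`).
-/

set_option autoImplicit false

namespace Pool.Agent.Results.MP_7bc610_gt.RandomCrossings

open Pool.Agent.H832R2.JR LaurentPolynomial

/-- Let `G` be the Gauss word of a knot shadow with `N` crossings (planar or not), and let `F` be a
Laurent polynomial (for instance `F = 1`).

* If there are `m` pairwise disjoint pairs of crossing chords, then at most `4 m^(-1/8) 2^N` of the
  `2^N` choices of the crossings give a diagram with normalised Kauffman bracket `F`.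
* If `t` is the number of classes of chords which cross some chord (two chords being in one class
  if they cross the same chords), then at most `6 t^(-1/8) 2^N` of the `2^N` choices of the
  crossings give a diagram with normalised Kauffman bracket `F`. -/
theorem result (N : ℕ) (G : GaussWord N) (F : ℤ[T;T⁻¹]) :
    (∀ (m : ℕ) (u v : Fin m → Fin N), IsMatching G u v →
      (Nat.card {w : Fin N → Bool // fPoly G w = F} : ℝ) * (m : ℝ) ^ (1 / 8 : ℝ) ≤ 4 * 2 ^ N) ∧
    (Nat.card {w : Fin N → Bool // fPoly G w = F} : ℝ) * (classes G : ℝ) ^ (1 / 8 : ℝ) ≤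
      6 * 2 ^ N := by
  classical
  have h1 : ∀ (m : ℕ) (u v : Fin m → Fin N), IsMatching G u v →
      (Nat.card {w : Fin N → Bool // fPoly G w = F} : ℝ) * (m : ℝ) ^ (1 / 8 : ℝ) ≤ 4 * 2 ^ N := by
    rintro m u v ⟨hu, hv, huv, hc⟩
    rcases Nat.eq_zero_or_pos m with rfl | hm
    · rw [Nat.cast_zero, Real.zero_rpow (by norm_num), mul_zero]
      positivity
    · obtain ⟨K, hK⟩ := second_moment G (u ⟨0, hm⟩)
      have hdiag : ∀ k, adjm G (u k) (v k) ≠ 0 := by
        intro k
        unfold adjm
        rw [if_pos (hc k)]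
        exact one_ne_zero
      by_cases hne : ∃ w₀ : Fin N → Bool, fPoly G w₀ = F
      · obtain ⟨w₀, hw₀⟩ := hne
        have h2 := matching_bound' (adjm G) (adjm_symm G) u v hu hv huv hdiag
          (Q (adjm G) w₀)
        refine le_trans ?_ h2
        have h3 : (Nat.card {w : Fin N → Bool // fPoly G w = F} : ℝ) ≤
            ((Finset.univ.filter fun w => Q (adjm G) w = Q (adjm G) w₀).card : ℝ) := by
          rw [Nat.card_eq_fintype_card, Fintype.card_subtype]
          refine Nat.cast_le.2 (Finset.card_le_card fun w hw => ?_)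
          rw [Finset.mem_filter] at hw ⊢
          refine ⟨hw.1, ?_⟩
          have e1 := hK w
          have e2 := hK w₀
          rw [hw.2] at e1
          rw [hw₀] at e2
          linarith
        gcongr
      · have h4 : IsEmpty {w : Fin N → Bool // fPoly G w = F} := ⟨fun w => hne ⟨w.1, w.2⟩⟩
        rw [Nat.card_eq_zero.2 (Or.inl h4), Nat.cast_zero, zero_mul]
        positivity
  refine ⟨h1, ?_⟩
  obtain ⟨m, u, v, huv, hmax⟩ := exists_maximal G
  have h2 := h1 m u v huv
  have h3 := classes_le G u v hmax
  have h4 : (classes G : ℝ) ^ (1 / 8 : ℝ) ≤ 1.5 * (m : ℝ) ^ (1 / 8 : ℝ) := by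
    have h5 : (classes G : ℝ) ≤ 10 * (m : ℝ) := by exact_mod_cast h3
    calc (classes G : ℝ) ^ (1 / 8 : ℝ) ≤ (10 * (m : ℝ)) ^ (1 / 8 : ℝ) :=
          Real.rpow_le_rpow (by positivity) h5 (by norm_num)
      _ = 10 ^ (1 / 8 : ℝ) * (m : ℝ) ^ (1 / 8 : ℝ) :=
          Real.mul_rpow (by norm_num) (by positivity)
      _ ≤ 1.5 * (m : ℝ) ^ (1 / 8 : ℝ) := by
          gcongr
          have h6 : (10 : ℝ) ≤ 1.5 ^ (8 : ℕ) := by norm_num
          calc (10 : ℝ) ^ (1 / 8 : ℝ) ≤ ((1.5 : ℝ) ^ (8 : ℕ)) ^ (1 / 8 : ℝ) :=
                Real.rpow_le_rpow (by norm_num) h6 (by norm_num)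
            _ = 1.5 := by
                rw [← Real.rpow_natCast, ← Real.rpow_mul (by norm_num)]
                norm_num
  calc (Nat.card {w : Fin N → Bool // fPoly G w = F} : ℝ) * (classes G : ℝ) ^ (1 / 8 : ℝ)
      ≤ (Nat.card {w : Fin N → Bool // fPoly G w = F} : ℝ) * (1.5 * (m : ℝ) ^ (1 / 8 : ℝ)) := by
        gcongr
    _ = 1.5 * ((Nat.card {w : Fin N → Bool // fPoly G w = F} : ℝ) * (m : ℝ) ^ (1 / 8 : ℝ)) := by
        ring
    _ ≤ 1.5 * (4 * 2 ^ N) := by gcongr
    _ = 6 * 2 ^ N := by ring

end Pool.Agent.Results.MP_7bc610_gt.RandomCrossings
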