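import Pool.Agent.H891R2.SI.Fin

/-!
# Jones polynomials of diagrams with long rows of crossings of arbitrary signs

`Pool.Agent.H891R2.SI.Defs`, `Pool.Agent.H891R2.MT.Defs` and `Pool.Agent.H891R2.Jones.Diagram`
contain the definitions:

* `UDiagram`, `Diagram`: unoriented / oriented link diagrams given by marked points, arcs (pieces
  without crossings) and crossings; planarity is not required, so these are diagrams of links in
  thickened surfaces (virtual links); `Orients D U`: `D` is `U` with directions;
  `Diagram.fPoly`: the normalised Kauffman bracket `(-A^{-3})^{w(D)} ⟨D⟩`;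
* `Sites k`: a diagram `O` with `k` open boxes (sites), each with four corners; `O.Connected`: the
  diagram is connected (each site being one piece);
* `O.fill w`, `w ∈ ℤ^k`: the site `e` is filled with two vertical strands twisted around each other, a
  row of `|w e|` crossings of the kind given by the sign of `w e`;
* `O.cut`: every site is filled with a cup and a cap, that is, all sites are cut through;
* `det U`: the determinant of a diagram, the absolute value of its bracket at `A = e^{πi/4}`.
-/

set_option autoImplicit false

namespace Pool.Agent.Results.MP_7bc610_gt.SiteTwist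

open Pool.Agent.H891R2.Jones Pool.Agent.H891R2.MT Pool.Agent.H891R2.SI

/-- Let `O` be a connected diagram with `c` crossings and `k ≥ 1` sites such that the link `O.cut`
has nonzero determinant (for classical diagrams: for instance, such that it is a knot). If
`|w e| ≥ 2 c + 4 k` for all sites `e`, with arbitrary signs of the `w e`, then no orientation `D` of
the diagram `O.fill w` has the Jones polynomial `1`; more precisely, the Jones polynomial in
`t = A^{-4}` has span at least `∑ |w e| - (3/2) c - 3 k`: if `D.fPoly` is supported in `[lo, hi]`, then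
`4 ∑ |w e| ≤ (hi - lo) + 6 c + 12 k`. -/
theorem result (k : ℕ) (hk : 0 < k) (O : Sites k) (hO : O.Connected) (hdet : det O.cut ≠ 0) 
    (w : Fin k → ℤ) (hw : ∀ e, 2 * O.crossings.length + 4 * k ≤ |w e|)
    (D : Diagram (O.P ⊕ Ribbon.Pt w)) (hD : Orients D (O.fill w)) :
    D.fPoly ≠ 1 ∧ ∀ lo hi : ℤ, (∀ j, D.fPoly.coeff j ≠ 0 → lo ≤ j ∧ j ≤ hi) → 
      4 * ∑ e, |w e| ≤ (hi - lo) + 6 * O.crossings.length + 12 * k := by
  have h := Fin.main O hk hO hdet w hw D hD
  refine ⟨fun h1 => ?_, h⟩
  have h2 := h 0 0 (by
    rw [h1]
    intro j hj
    have := T4b.SIn.one j hj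
    exact this)
  have h3 : (k : ℤ) * (2 * O.crossings.length + 4 * k) ≤ ∑ e, |w e| := by
    have := Finset.card_nsmul_le_sum Finset.univ (fun e => |w e|) _ (fun e _ => hw e)
    simpa using this
  have hk' : (1 : ℤ) ≤ k := by exact_mod_cast hk
  have hc : (0 : ℤ) ≤ O.crossings.length := by positivity
  nlinarith [mul_le_mul_of_nonneg_right hk' hc, mul_le_mul_of_nonneg_right hk' (by linarith : (0:ℤ) ≤ k)]

end Pool.Agent.Results.MP_7bc610_gt.SiteTwist
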