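import Pool.Agent.H891R2.Jones.Final
import Pool.Agent.H891R2.Jones.Closed

/-!
# Jones-trivial members of twist families

`Pool.Agent.H891R2.Jones.Diagram` contains the definitions: `Diagram P` (oriented link diagrams, planar or not,
with marked points `P` on the strands), `Diagram.bracket` (the Kauffman bracket, a state sum over
all `2^n` states), `Diagram.writhe`, `Diagram.fPoly` (the normalised bracket
`(-A^{-3})^{w(D)} ⟨D⟩`), `Outer m` (an oriented diagram with a box through which `m` strands run),
`Outer.close` (the diagram with the box filled by `m` uncrossed strands), `Outer.twisted a` (the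
box filled with `a ∈ ℤ` full twists on the `m` strands) and `Outer.linking` (the number of strands
through the box oriented upwards minus the number of strands oriented downwards, i.e. the linking
number of the diagram with the boundary of the twisting disc).
-/

set_option autoImplicit false

namespace Pool.Agent.Results.MP_7bc610_gt.TwistFamilies

open Pool.Agent.H891R2.Jones

/-- `3 ℓ² + 1` is the square of an integer `s + 1` with `0 ≤ s ≤ m` -/
def Exceptional (m : ℕ) (l : ℤ) : Prop := ∃ s : ℕ, s ≤ m ∧ (s : ℤ) * (s + 2) = 3 * l ^ 2

open Classical in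
/-- Let `D(a)`, `a ∈ ℤ`, be the diagrams obtained from an oriented link diagram by putting `a` full
twists on `m ≥ 1` strands with linking number `ℓ` with the twisting disc.  Then all of them are
closed oriented diagrams, and either

* the normalised Kauffman bracket of `D(a)` is `1` for at most `⌊m/2⌋ + 1` integers `a` (at most
  `⌊m/2⌋` integers `a` if `3 ℓ² + 1 = (s + 1)²` for some `0 ≤ s ≤ m`), or
* `3 ℓ² + 1 = (s + 1)²` for some `0 ≤ s ≤ m`, and it is `1` for all `a ∈ ℤ`. -/
theorem result {m : ℕ} (hm : 0 < m) (O : Outer m) (hO : O.close.IsClosed) :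
    (∀ a : ℤ, (O.twisted a).IsClosed) ∧
    (({a : ℤ | (O.twisted a).fPoly = 1}.Finite ∧
      {a : ℤ | (O.twisted a).fPoly = 1}.ncard ≤ 
        m / 2 + (if Exceptional m O.linking then 0 else 1)) ∨
     (Exceptional m O.linking ∧ ∀ a : ℤ, (O.twisted a).fPoly = 1)) := by
  refine ⟨twisted_closed O hO, ?_⟩
  by_cases h : Exceptional m O.linking
  · rcases main_Pell hm O h with h1 | h1
    · exact Or.inr ⟨h, h1⟩
    · left
      rw [if_pos h, add_zero]
      exact h1
  · left
    rw [if_neg h]
    exact main_nonPell hm O h

end Pool.Agent.Results.MP_7bc610_gt.TwistFamilies
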