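import Pool.Agent.H832R3.TW.E

/-!
# Unit Jones polynomials in families of links in thickened surfaces with many twist regions

Diagrams: `Pool.Agent.H891R2.Jones.Diagram` (`Crossing`, `Diagram`: oriented diagrams with marked
points; the arcs only say which marked points are joined, so these are diagrams of links in
thickened surfaces, that is, of virtual links; `Diagram.IsClosed`; `Diagram.bracket`,
`Diagram.fPoly`: the state sum and the normalised bracket, all loops counting equally) and
`Pool.Agent.H891R2.MT.Defs` (`UDiagram`, `Orients D U`).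

Templates: `Pool.Agent.H832R3.TW.Defs` (`Corner k`: the `4 k` corners of `k` boxes; a template is
the list `arcs` of the pairs of corners joined outside of the boxes; `twisted arcs n`: the diagram
in which the box `e` contains a row of `|n e|` crossings of the kind given by the sign of `n e`;
`loops arcs S`: the number of components if the boxes `e ∈ S` contain two vertical strands and the
other boxes two horizontal ones; `Nugatory arcs`: `loops arcs S + |S| = loops arcs ∅` for all `S`).
`FSpanLE s D` (in `Pool.Agent.H832R3.TW.E`): the normalised bracket of `D` is supported in an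
interval of length at most `4 s`; the diagrams with unit Jones polynomial satisfy `FSpanLE 0`.
-/

set_option autoImplicit false

namespace Pool.Agent.Results.MP_7bc610_gt.TwistRegions

open LaurentPolynomial Pool.Agent.H891R2.Jones Pool.Agent.H891R2.MT Pool.Agent.H832R3.TW

/-- Let `arcs` be a template with `k` boxes on an arbitrary surface, and let `D(n)`, `n ∈ ℤ^k`, be
the diagram with `|n e|` crossings in the box `e`.

* Suppose that not all boxes are nugatory.  If an orientation of `D(n)` has a Jones polynomial of
  span at most `s`, then `|n(S₁) - n(S₂)| ≤ 4 k + s + 1` for two different sets `S₁`, `S₂` of boxes,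
  where `n(S) = ∑ e ∈ S, n e`.  Hence this happens for at most
  `3^k (8 k + 2 s + 3) (2 N + 1)^(k-1)` of the `(2 N + 1)^k` diagrams `D(n)` with `|n e| ≤ N` for all
  `e`.
* If all boxes are nugatory then the Jones polynomials of all `D(n)` are, up to a unit, those of an
  unlink. -/
theorem result (k : ℕ) (arcs : List (Corner k × Corner k)) :
    (¬ Nugatory arcs → ∀ s : ℕ,
      (∀ (n : Fin k → ℤ) (D : Diagram (Ribbon.Pt n)), Orients D (twisted arcs n) → D.IsClosed →
        FSpanLE s D → ∃ S₁ S₂ : Finset (Fin k), S₁ ≠ S₂ ∧
          |∑ e ∈ S₁, n e - ∑ e ∈ S₂, n e| ≤ 4 * k + s + 1) ∧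
      (∀ N : ℕ, {n : Fin k → ℤ | (∀ e, |n e| ≤ N) ∧ ∃ D : Diagram (Ribbon.Pt n),
          Orients D (twisted arcs n) ∧ D.IsClosed ∧ FSpanLE s D}.ncard ≤
        3 ^ k * (8 * k + 2 * s + 3) * (2 * N + 1) ^ (k - 1))) ∧
    (Nugatory arcs → 0 < k → ∀ (n : Fin k → ℤ) (D : Diagram (Ribbon.Pt n)),
      Orients D (twisted arcs n) → ∃ ε m : ℤ, (ε = 1 ∨ ε = -1) ∧
        (-T 2 - T (-2)) ^ (k + 1) * D.fPoly = C ε * T m * (-T 2 - T (-2)) ^ (loops arcs ∅)) :=
  ⟨fun hτ s => ⟨fun n D hD _ h => relation' arcs hτ s n D hD h,
    fun N => count' arcs hτ s N (fun _ D => D.IsClosed)⟩,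
    fun hτ hk n D hD => nugatory' arcs hτ hk n D hD⟩

end Pool.Agent.Results.MP_7bc610_gt.TwistRegions
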